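import Mathlib

/-!
Definitions for the Hopf-lemma variants of Li and Nirenberg (Laplacian case).
-/

set_option autoImplicit false

namespace Pool.Agent.R743.HopfLap

open scoped ContDiff

/-- points `(t, y)` of `ℝ^n`, `n = m + 1` -/
abbrev Pt (m : ℕ) := ℝ × EuclideanSpace ℝ (Fin m)

/-- `Ω = {(t, y) : |y| < 1, 0 < t < 1}` -/
def Om (m : ℕ) : Set (Pt m) := {x | ‖x.2‖ < 1 ∧ 0 < x.1 ∧ x.1 < 1}

/-- the partial derivative in `t` -/
noncomputable def dt {m : ℕ} (f : Pt m → ℝ) (x : Pt m) : ℝ :=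
  deriv (fun r : ℝ => f (x.1 + r, x.2)) 0

/-- the Laplacian in all `m + 1` variables: the sum of the pure second partial derivatives -/
noncomputable def lap {m : ℕ} (f : Pt m → ℝ) (x : Pt m) : ℝ :=
  iteratedDeriv 2 (fun r : ℝ => f (x.1 + r, x.2)) 0 +
    ∑ j : Fin m, iteratedDeriv 2 (fun r : ℝ => f (x.1, x.2 + r • EuclideanSpace.single j 1)) 0

/-- conditions 1, 2, 3, 4 of the problem (with smoothness on the whole space) -/
structure Cond {m : ℕ} (u v : Pt m → ℝ) : Prop where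
  smooth_u : ContDiff ℝ ∞ u
  smooth_v : ContDiff ℝ ∞ v
  le : ∀ x ∈ Om m, v x ≤ u x
  u_pos : ∀ x ∈ Om m, 0 < u x
  v_pos : ∀ x ∈ Om m, 0 < v x
  ut_pos : ∀ x ∈ Om m, 0 < dt u x
  u_zero : ∀ y : EuclideanSpace ℝ (Fin m), ‖y‖ < 1 → u (0, y) = 0
  comparison : ∀ (t s : ℝ) (y : EuclideanSpace ℝ (Fin m)), 0 < t → t ≤ s → s < 1 → ‖y‖ < 1 →
    u (t, y) = v (s, y) → lap u (t, y) ≤ lap v (s, y)
  ut_zero : dt u (0, 0) = 0

end Pool.Agent.R743.HopfLap
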