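import Pool.Agent.R743.HopfLap.Poly
import Pool.Agent.R743.HopfLap.Defs

/-!
The family of polynomials used in the counterexample, their derivatives, and the comparison
condition.
-/

set_option autoImplicit false

namespace Pool.Agent.R743.HopfLap

open scoped ContDiff

variable {m : ℕ}

/-- the polynomials `c0 |y|^6 t + c1 |y|^4 t^3 + c2 |y|^2 t^5 + c3 t^7` -/
noncomputable def fam (m : ℕ) (c0 c1 c2 c3 : ℝ) (x : Pt m) : ℝ :=
  c0 * (‖x.2‖ ^ 2) ^ 3 * x.1 + c1 * (‖x.2‖ ^ 2) ^ 2 * x.1 ^ 3 + c2 * ‖x.2‖ ^ 2 * x.1 ^ 5 +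
    c3 * x.1 ^ 7

theorem fam_smooth (c0 c1 c2 c3 : ℝ) : ContDiff ℝ ∞ (fam m c0 c1 c2 c3) := by
  have h1 : ContDiff ℝ ∞ fun x : Pt m => ‖x.2‖ ^ 2 := contDiff_snd.norm_sq ℝ
  have h2 : ContDiff ℝ ∞ fun x : Pt m => x.1 := contDiff_fst
  unfold fam
  exact (((((contDiff_const.mul (h1.pow 3)).mul h2)).add
    ((contDiff_const.mul (h1.pow 2)).mul (h2.pow 3))).add
    ((contDiff_const.mul h1).mul (h2.pow 5))).add (contDiff_const.mul (h2.pow 7))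

theorem poly_hasDerivAt (c0 c1 c2 c3 Y t r : ℝ) :
    HasDerivAt (fun r : ℝ => c0 * Y ^ 3 * (t + r) + c1 * Y ^ 2 * (t + r) ^ 3 +
      c2 * Y * (t + r) ^ 5 + c3 * (t + r) ^ 7)
      (c0 * Y ^ 3 + 3 * c1 * Y ^ 2 * (t + r) ^ 2 + 5 * c2 * Y * (t + r) ^ 4 +
        7 * c3 * (t + r) ^ 6) r := by
  have h : HasDerivAt (fun r : ℝ => t + r) 1 r := by simpa using (hasDerivAt_id r).const_add t
  have h1 := h.const_mul (c0 * Y ^ 3)
  have h2 := (h.pow 3).const_mul (c1 * Y ^ 2)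
  have h3 := (h.pow 5).const_mul (c2 * Y)
  have h4 := (h.pow 7).const_mul c3
  refine (((h1.add h2).add h3).add h4).congr_deriv ?_
  push_cast
  ring

theorem poly_hasDerivAt2 (c0 c1 c2 c3 Y t r : ℝ) :
    HasDerivAt (fun r : ℝ => c0 * Y ^ 3 + 3 * c1 * Y ^ 2 * (t + r) ^ 2 +
      5 * c2 * Y * (t + r) ^ 4 + 7 * c3 * (t + r) ^ 6)
      (6 * c1 * Y ^ 2 * (t + r) + 20 * c2 * Y * (t + r) ^ 3 + 42 * c3 * (t + r) ^ 5) r := by
  have h : HasDerivAt (fun r : ℝ => t + r) 1 r := by simpa using (hasDerivAt_id r).const_add t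
  have h2 := (h.pow 2).const_mul (3 * c1 * Y ^ 2)
  have h3 := (h.pow 4).const_mul (5 * c2 * Y)
  have h4 := (h.pow 6).const_mul (7 * c3)
  have h5 := ((h2.const_add (c0 * Y ^ 3)).add h3).add h4
  refine h5.congr_deriv ?_
  push_cast
  ring

theorem fam_dt (c0 c1 c2 c3 : ℝ) (x : Pt m) :
    dt (fam m c0 c1 c2 c3) x = c0 * (‖x.2‖ ^ 2) ^ 3 + 3 * c1 * (‖x.2‖ ^ 2) ^ 2 * x.1 ^ 2 +
      5 * c2 * ‖x.2‖ ^ 2 * x.1 ^ 4 + 7 * c3 * x.1 ^ 6 := by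
  have h := (poly_hasDerivAt c0 c1 c2 c3 (‖x.2‖ ^ 2) x.1 0).deriv
  simp only [add_zero] at h
  exact h

theorem fam_dtt (c0 c1 c2 c3 : ℝ) (x : Pt m) :
    iteratedDeriv 2 (fun r : ℝ => fam m c0 c1 c2 c3 (x.1 + r, x.2)) 0 =
      6 * c1 * (‖x.2‖ ^ 2) ^ 2 * x.1 + 20 * c2 * ‖x.2‖ ^ 2 * x.1 ^ 3 + 42 * c3 * x.1 ^ 5 := by
  have h1 : deriv (fun r : ℝ => fam m c0 c1 c2 c3 (x.1 + r, x.2)) = fun r : ℝ =>
      c0 * (‖x.2‖ ^ 2) ^ 3 + 3 * c1 * (‖x.2‖ ^ 2) ^ 2 * (x.1 + r) ^ 2 +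
      5 * c2 * ‖x.2‖ ^ 2 * (x.1 + r) ^ 4 + 7 * c3 * (x.1 + r) ^ 6 :=
    funext fun r => (poly_hasDerivAt c0 c1 c2 c3 (‖x.2‖ ^ 2) x.1 r).deriv
  rw [iteratedDeriv_succ, iteratedDeriv_one, h1,
    (poly_hasDerivAt2 c0 c1 c2 c3 (‖x.2‖ ^ 2) x.1 0).deriv]
  simp only [add_zero]

theorem quad_second (c0 c1 c2 c3 A B : ℝ) :
    iteratedDeriv 2 (fun r : ℝ => c0 * (A + B * r + r ^ 2) ^ 3 + c1 * (A + B * r + r ^ 2) ^ 2 +
      c2 * (A + B * r + r ^ 2) + c3) 0 =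
      c0 * (6 * A ^ 2 + 6 * A * B ^ 2) + c1 * (4 * A + 2 * B ^ 2) + 2 * c2 := by
  have hq : ∀ r : ℝ, HasDerivAt (fun r : ℝ => A + B * r + r ^ 2) (B + 2 * r) r := by
    intro r
    have h1 := (((hasDerivAt_id r).const_mul B).const_add A).add ((hasDerivAt_id r).pow 2)
    refine h1.congr_deriv ?_
    simp
  have hl : ∀ r : ℝ, HasDerivAt (fun r : ℝ => B + 2 * r) 2 r := by
    intro r
    have h1 := ((hasDerivAt_id r).const_mul 2).const_add B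
    refine h1.congr_deriv ?_
    simp
  have h1 : deriv (fun r : ℝ => c0 * (A + B * r + r ^ 2) ^ 3 + c1 * (A + B * r + r ^ 2) ^ 2 +
      c2 * (A + B * r + r ^ 2) + c3) = fun r : ℝ =>
      (c0 * (3 * (A + B * r + r ^ 2) ^ 2) + c1 * (2 * (A + B * r + r ^ 2)) + c2) *
        (B + 2 * r) := by
    funext r
    have h2 := (((((hq r).pow 3).const_mul c0).add (((hq r).pow 2).const_mul c1)).add
      ((hq r).const_mul c2)).add_const c3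
    have h3 := (h2.congr_deriv (g' := (c0 * (3 * (A + B * r + r ^ 2) ^ 2) +
      c1 * (2 * (A + B * r + r ^ 2)) + c2) * (B + 2 * r)) (by push_cast; ring)).deriv
    exact h3
  rw [iteratedDeriv_succ, iteratedDeriv_one, h1]
  have h3 := ((((((hq 0).pow 2).const_mul 3).const_mul c0).add
    (((hq 0).const_mul 2).const_mul c1)).add_const c2).mul (hl 0)
  have h4 := (h3.congr_deriv (g' := c0 * (6 * A ^ 2 + 6 * A * B ^ 2) + c1 * (4 * A + 2 * B ^ 2) +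
    2 * c2) (by simp only [Pi.add_apply, Pi.pow_apply]; push_cast; ring)).deriv
  exact h4

theorem fam_dyy (c0 c1 c2 c3 : ℝ) (x : Pt m) (j : Fin m) :
    iteratedDeriv 2 (fun r : ℝ => fam m c0 c1 c2 c3
      (x.1, x.2 + r • EuclideanSpace.single j 1)) 0 =
      c0 * x.1 * (6 * (‖x.2‖ ^ 2) ^ 2 + 24 * ‖x.2‖ ^ 2 * (x.2 j) ^ 2) +
        c1 * x.1 ^ 3 * (4 * ‖x.2‖ ^ 2 + 8 * (x.2 j) ^ 2) + 2 * (c2 * x.1 ^ 5) := by
  have h1 : ∀ r : ℝ, ‖x.2 + r • EuclideanSpace.single j (1 : ℝ)‖ ^ 2 =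
      ‖x.2‖ ^ 2 + (2 * x.2 j) * r + r ^ 2 := by
    intro r
    rw [norm_add_sq_real, real_inner_smul_right, EuclideanSpace.inner_single_right, norm_smul,
      PiLp.norm_single]
    simp
    ring
  have h2 : (fun r : ℝ => fam m c0 c1 c2 c3 (x.1, x.2 + r • EuclideanSpace.single j 1)) =
      fun r : ℝ => (c0 * x.1) * (‖x.2‖ ^ 2 + (2 * x.2 j) * r + r ^ 2) ^ 3 +
        (c1 * x.1 ^ 3) * (‖x.2‖ ^ 2 + (2 * x.2 j) * r + r ^ 2) ^ 2 +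
        (c2 * x.1 ^ 5) * (‖x.2‖ ^ 2 + (2 * x.2 j) * r + r ^ 2) + c3 * x.1 ^ 7 := by
    funext r
    unfold fam
    simp only
    rw [h1 r]
    ring
  rw [h2, quad_second]
  ring

theorem fam_lap (c0 c1 c2 c3 : ℝ) (x : Pt m) :
    lap (fam m c0 c1 c2 c3) x = c0 * x.1 * (6 * (m + 4) * (‖x.2‖ ^ 2) ^ 2) +
      c1 * (4 * (m + 2) * ‖x.2‖ ^ 2 * x.1 ^ 3 + 6 * (‖x.2‖ ^ 2) ^ 2 * x.1) +
      c2 * (2 * m * x.1 ^ 5 + 20 * ‖x.2‖ ^ 2 * x.1 ^ 3) + 42 * c3 * x.1 ^ 5 := by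
  have h : ∑ j : Fin m, (x.2 j) ^ 2 = ‖x.2‖ ^ 2 := by
    rw [EuclideanSpace.norm_sq_eq]
    simp
  unfold lap
  rw [fam_dtt]
  have h2 : ∑ j : Fin m, iteratedDeriv 2 (fun r : ℝ => fam m c0 c1 c2 c3
      (x.1, x.2 + r • EuclideanSpace.single j 1)) 0 =
      ∑ j : Fin m, ((6 * c0 * x.1 * (‖x.2‖ ^ 2) ^ 2 + 4 * c1 * x.1 ^ 3 * ‖x.2‖ ^ 2 +
        2 * c2 * x.1 ^ 5) + (24 * c0 * x.1 * ‖x.2‖ ^ 2 + 8 * c1 * x.1 ^ 3) * (x.2 j) ^ 2) := by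
    refine Finset.sum_congr rfl fun j _ => ?_
    rw [fam_dyy]
    ring
  rw [h2, Finset.sum_add_distrib, ← Finset.mul_sum, h, Finset.sum_const, Finset.card_univ,
    Fintype.card_fin, nsmul_eq_mul]
  ring

/-- the lower function -/
noncomputable def vf (m : ℕ) : Pt m → ℝ := fam m 2000 (-(200 / 3)) 10 (1 / 7)

/-- the upper function -/
noncomputable def uf (m : ℕ) : Pt m → ℝ :=
  fam m (2000 + 1 / 1000 * 100) (-(200 / 3) + 1 / 1000 * (-5)) (10 + 1 / 1000 * (1 / 10))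
    (1 / 7 + 1 / 1000 * 2)

theorem uf_eq (x : Pt m) : uf m x = vf m x + 1 / 1000 * (x.1 * Hf (‖x.2‖ ^ 2) (x.1 ^ 2)) := by
  unfold uf vf fam Hf
  ring

theorem uf_lap (x : Pt m) :
    lap (uf m) x = lap (vf m) x + 1 / 1000 * (x.1 * LH m (‖x.2‖ ^ 2) (x.1 ^ 2)) := by
  unfold uf vf
  rw [fam_lap, fam_lap]
  unfold LH
  ring

theorem v_deriv (y : EuclideanSpace ℝ (Fin m)) (s : ℝ) :
    HasDerivAt (fun s : ℝ => vf m (s, y)) (Wf (‖y‖ ^ 2) (s ^ 2)) s := by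
  have h := poly_hasDerivAt 2000 (-(200 / 3)) 10 (1 / 7) (‖y‖ ^ 2) 0 s
  have h2 := h.congr_deriv (g' := Wf (‖y‖ ^ 2) (s ^ 2)) (by unfold Wf; ring)
  refine h2.congr_of_eventuallyEq (Filter.Eventually.of_forall fun r => ?_)
  simp only [vf, fam, zero_add]

theorem lv_deriv (y : EuclideanSpace ℝ (Fin m)) (s : ℝ) :
    HasDerivAt (fun s : ℝ => lap (vf m) (s, y)) (LW m (‖y‖ ^ 2) (s ^ 2)) s := by
  have h1 : (fun s : ℝ => lap (vf m) (s, y)) = fun s : ℝ =>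
      (2000 * (6 * (m + 4) * (‖y‖ ^ 2) ^ 2) - 400 * (‖y‖ ^ 2) ^ 2) * s +
      (-(200 / 3) * (4 * (m + 2) * ‖y‖ ^ 2) + 200 * ‖y‖ ^ 2) * s ^ 3 +
      (20 * m + 6) * s ^ 5 := by
    funext s
    unfold vf
    rw [fam_lap]
    ring
  rw [h1]
  have h := hasDerivAt_id s
  have h2 := ((h.const_mul (2000 * (6 * ((m : ℝ) + 4) * (‖y‖ ^ 2) ^ 2) -
    400 * (‖y‖ ^ 2) ^ 2)).add ((h.pow 3).const_mul
      (-(200 / 3) * (4 * ((m : ℝ) + 2) * ‖y‖ ^ 2) + 200 * ‖y‖ ^ 2))).add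
      ((h.pow 5).const_mul (20 * (m : ℝ) + 6))
  refine h2.congr_deriv ?_
  unfold LW
  push_cast
  simp only [id]
  ring

/-- the comparison condition -/
theorem comparison_uv (hm : 1 ≤ m) {t s : ℝ} {y : EuclideanSpace ℝ (Fin m)} (ht : 0 < t)
    (hts : t ≤ s) (h : uf m (t, y) = vf m (s, y)) : lap (uf m) (t, y) ≤ lap (vf m) (s, y) := by
  set Y : ℝ := ‖y‖ ^ 2 with hY
  have hY0 : 0 ≤ Y := sq_nonneg _
  have hT : 0 < t ^ 2 := by positivity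
  have hH : 0 < Hf Y (t ^ 2) := Hf_pos hY0 hT
  have hm' : (1 : ℝ) ≤ m := by exact_mod_cast hm
  have e1 : vf m (s, y) - vf m (t, y) = 1 / 1000 * (t * Hf Y (t ^ 2)) := by
    rw [← h, uf_eq]
    ring
  have hlt : t < s := by
    rcases hts.lt_or_eq with h1 | h1
    · exact h1
    · exfalso
      rw [h1, sub_self] at e1
      rw [← h1] at e1
      have : 0 < t * Hf Y (t ^ 2) := by positivity
      linarith
  have hcV : ContinuousOn (fun s : ℝ => vf m (s, y)) (Set.Icc t s) :=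
    fun x _ => (v_deriv y x).continuousAt.continuousWithinAt
  have hcL : ContinuousOn (fun s : ℝ => lap (vf m) (s, y)) (Set.Icc t s) :=
    fun x _ => (lv_deriv y x).continuousAt.continuousWithinAt
  -- `s` is close to `t`
  have hclose : s ≤ 1.005 * t := by
    by_contra hcon
    push Not at hcon
    obtain ⟨ξ, hξ, hslope⟩ := exists_hasDerivAt_eq_slope (fun s : ℝ => vf m (s, y))
      (fun s => Wf Y (s ^ 2)) hlt hcV (fun x _ => v_deriv y x)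
    have h1 : 0 < s - t := by linarith
    rw [eq_div_iff h1.ne'] at hslope
    have h2 : t ^ 2 ≤ ξ ^ 2 := pow_le_pow_left₀ ht.le hξ.1.le 2
    have h3 := Wf_lower hY0 hT h2
    have h4 : 0.4 * Hf Y (t ^ 2) * (s - t) < Wf Y (ξ ^ 2) * (s - t) :=
      mul_lt_mul_of_pos_right h3 h1
    have h5 : 0.4 * Hf Y (t ^ 2) * (0.005 * t) ≤ 0.4 * Hf Y (t ^ 2) * (s - t) := by
      apply mul_le_mul_of_nonneg_left _ (by positivity)
      linarith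
    have h6 : Wf Y (ξ ^ 2) * (s - t) = 1 / 1000 * (t * Hf Y (t ^ 2)) := by
      rw [hslope]
      exact e1
    have h7 : 0 < t * Hf Y (t ^ 2) := by positivity
    nlinarith
  obtain ⟨ξ, hξ, hrat⟩ := exists_ratio_hasDerivAt_eq_ratio_slope (fun s : ℝ => vf m (s, y))
    (fun s => Wf Y (s ^ 2)) hlt hcV (fun x _ => v_deriv y x)
    (fun s : ℝ => lap (vf m) (s, y)) (fun s => LW m Y (s ^ 2)) hcL (fun x _ => lv_deriv y x)
  have h2 : t ^ 2 ≤ ξ ^ 2 := pow_le_pow_left₀ ht.le hξ.1.le 2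
  have h3 : ξ ^ 2 ≤ 1.0101 * t ^ 2 := by
    have h4 : ξ ≤ 1.005 * t := hξ.2.le.trans hclose
    have h5 : ξ ^ 2 ≤ (1.005 * t) ^ 2 := pow_le_pow_left₀ (by linarith [hξ.1]) h4 2
    nlinarith
  have h4 := main_ineq hm' hY0 hT.le h2 h3
  have hW : 0 < Wf Y (ξ ^ 2) := by
    have := Wf_lower hY0 hT h2
    have h6 : 0 < 0.4 * Hf Y (t ^ 2) := by positivity
    linarith
  rw [uf_lap]
  rw [e1] at hrat
  -- `(LV s - LV t) * W = ε t H * LW`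
  have h5 : (1 / 1000 * (t * LH m Y (t ^ 2))) * Wf Y (ξ ^ 2) ≤
      (lap (vf m) (s, y) - lap (vf m) (t, y)) * Wf Y (ξ ^ 2) := by
    rw [hrat]
    have h6 := mul_le_mul_of_nonneg_left h4 (show (0 : ℝ) ≤ 1 / 1000 * t by positivity)
    linarith
  have h6 := le_of_mul_le_mul_right h5 hW
  linarith

theorem vf_pos {x : Pt m} (hx : 0 < x.1) : 0 < vf m x := by
  unfold vf fam
  have h1 : 0 ≤ ‖x.2‖ ^ 2 := sq_nonneg _
  set Y := ‖x.2‖ ^ 2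
  set t := x.1
  have h2 : 0 < t ^ 7 := by positivity
  have h3 : 0 ≤ Y * t * (2000 * Y ^ 2 - 200 / 3 * Y * t ^ 2 + 10 * t ^ 4) := by
    apply mul_nonneg (by positivity)
    nlinarith [sq_nonneg (t ^ 2 - 10 / 3 * Y), sq_nonneg Y]
  nlinarith [h2, h3]

theorem uf_gt {x : Pt m} (hx : 0 < x.1) : vf m x < uf m x := by
  rw [uf_eq]
  have h1 : 0 < Hf (‖x.2‖ ^ 2) (x.1 ^ 2) := Hf_pos (sq_nonneg _) (by positivity)
  have h2 : 0 < 1 / 1000 * (x.1 * Hf (‖x.2‖ ^ 2) (x.1 ^ 2)) := by positivity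
  linarith

theorem uf_dt_pos {x : Pt m} (hx : 0 < x.1) : 0 < dt (uf m) x := by
  unfold uf
  rw [fam_dt]
  have h1 : 0 ≤ ‖x.2‖ ^ 2 := sq_nonneg _
  set Y := ‖x.2‖ ^ 2
  set t := x.1
  have h2 : 0 < t ^ 6 := by positivity
  have h3 : 0 ≤ Y * (1900 * Y ^ 2 - 201 * Y * t ^ 2 + 50 * t ^ 4) := by
    apply mul_nonneg h1
    nlinarith [sq_nonneg (t ^ 2 - 2 * Y), sq_nonneg Y]
  have h4 : 0 ≤ Y ^ 3 := by positivity
  have h5 : 0 ≤ Y ^ 2 * t ^ 2 := by positivity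
  have h6 : 0 ≤ Y * t ^ 4 := by positivity
  nlinarith [h2, h3, h4, h5, h6]

theorem cond_uv (hm : 1 ≤ m) : Cond (uf m) (vf m) where
  smooth_u := fam_smooth _ _ _ _
  smooth_v := fam_smooth _ _ _ _
  le := fun _ hx => (uf_gt hx.2.1).le
  u_pos := fun _ hx => (vf_pos hx.2.1).trans (uf_gt hx.2.1)
  v_pos := fun _ hx => vf_pos hx.2.1
  ut_pos := fun _ hx => uf_dt_pos hx.2.1
  u_zero := fun y _ => by simp [uf, fam]
  comparison := fun _ _ _ ht hts _ _ h => comparison_uv hm ht hts h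
  ut_zero := by
    unfold uf
    rw [fam_dt]
    simp

end Pool.Agent.R743.HopfLap
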