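import Mathlib

/-!
Polynomial inequalities behind the counterexample to the Hopf-lemma variant of Li and Nirenberg.
`Y` stands for `|y|^2`, `T` for `t^2`, `X` for `s^2`.
-/

set_option autoImplicit false

namespace Pool.Agent.R743.HopfLap

/-- `v_t` as a function of `Y` and `X = s^2` -/
def Wf (Y X : ℝ) : ℝ := 2000 * Y ^ 3 - 200 * Y ^ 2 * X + 50 * Y * X ^ 2 + X ^ 3

/-- Laplacian of `v_t` -/
def LW (m Y X : ℝ) : ℝ :=
  2000 * (6 * (m + 4) * Y ^ 2) - 200 * (4 * (m + 2) * Y * X + 2 * Y ^ 2) +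
    50 * (2 * m * X ^ 2 + 12 * X * Y) + 30 * X ^ 2

/-- `h / t` -/
noncomputable def Hf (Y T : ℝ) : ℝ :=
  100 * Y ^ 3 - 5 * Y ^ 2 * T + (1 / 10) * Y * T ^ 2 + 2 * T ^ 3

/-- Laplacian of `h`, divided by `t` -/
noncomputable def LH (m Y T : ℝ) : ℝ :=
  100 * (6 * (m + 4) * Y ^ 2) - 5 * (4 * (m + 2) * Y * T + 6 * Y ^ 2) +
    (1 / 10) * (2 * m * T ^ 2 + 20 * T * Y) + 84 * T ^ 2

theorem quartic1 (Y T : ℝ) :
    0 ≤ 232000 * Y ^ 4 - 306095 * Y ^ 3 * T + 135140 * Y ^ 2 * T ^ 2 - 7979 * Y * T ^ 3 +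
      175.8 * T ^ 4 := by
  have h1 : 0 ≤ (13 * T ^ 2 - 306 * T * Y + 300 * Y ^ 2) ^ 2 := sq_nonneg _
  have h2 : 0 ≤ T ^ 2 * (6.8 * T ^ 2 - 23 * T * Y + 20 * Y ^ 2) := by
    apply mul_nonneg (sq_nonneg _)
    nlinarith [sq_nonneg (6.8 * T - 11.5 * Y), sq_nonneg Y]
  have h3 : 0 ≤ Y ^ 2 * (33684 * T ^ 2 - 122495 * T * Y + 142000 * Y ^ 2) := by
    apply mul_nonneg (sq_nonneg _)
    nlinarith [sq_nonneg (33684 * T - 61247.5 * Y), sq_nonneg Y]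
  nlinarith [h1, h2, h3]

theorem quartic2 (Y T : ℝ) :
    0 ≤ 10000 * Y ^ 4 - 10007 * Y ^ 3 * T + 11921 * Y ^ 2 * T ^ 2 - 806 * Y * T ^ 3 +
      99.9 * T ^ 4 := by
  have h2 : 0 ≤ T ^ 2 * (99.9 * T ^ 2 - 806 * T * Y + 3921 * Y ^ 2) := by
    apply mul_nonneg (sq_nonneg _)
    nlinarith [sq_nonneg (99.9 * T - 403 * Y), sq_nonneg Y]
  have h3 : 0 ≤ Y ^ 2 * (8000 * T ^ 2 - 10007 * T * Y + 10000 * Y ^ 2) := by
    apply mul_nonneg (sq_nonneg _)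
    nlinarith [sq_nonneg (8000 * T - 5003.5 * Y), sq_nonneg Y]
  nlinarith [h2, h3]

/-- the main inequality -/
theorem main_ineq {m Y T X : ℝ} (hm : 1 ≤ m) (hY : 0 ≤ Y) (hT : 0 ≤ T) (h1 : T ≤ X)
    (h2 : X ≤ 1.0101 * T) : LH m Y T * Wf Y X ≤ LW m Y X * Hf Y T := by
  obtain ⟨e, rfl⟩ : ∃ e, X = T + e := ⟨X - T, by ring⟩
  have he0 : 0 ≤ e := by linarith
  have he1 : e ≤ 0.0101 * T := by linarith
  have heT : e * e ≤ 0.0101 * T * e := mul_le_mul_of_nonneg_right he1 he0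
  have hee : 0 ≤ e * e := mul_nonneg he0 he0
  have hTe : 0 ≤ T * e := mul_nonneg hT he0
  have hTT : 0 ≤ T * T := mul_nonneg hT hT
  have hTeT : T * e ≤ 0.0101 * (T * T) := by nlinarith
  -- coefficients of the first form
  have c1 : 232000 * T ≤ -182000 * T + 414000 * (T + e) := by linarith
  have c2 : -306095 * T ^ 2 ≤ -162440 * T ^ 2 - 2600 * (T + e) * T - 135500 * (T + e) ^ 2 := by
    nlinarith
  have c3 : 135140 * T ^ 3 ≤ 119200 * T ^ 3 + 16660 * (T + e) * T ^ 2 + 2250 * (T + e) ^ 2 * T -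
      2970 * (T + e) ^ 3 := by
    have : 0 ≤ e * (12250 * T ^ 2 - 6660 * e * T - 2970 * e ^ 2) := by
      apply mul_nonneg he0
      nlinarith
    nlinarith [this]
  have c4 : -7979 * T ^ 4 ≤ -3600 * (T + e) * T ^ 3 - 4197 * (T + e) ^ 2 * T ^ 2 +
      58 * (T + e) ^ 3 * T := by
    have k1 : 0 ≤ T ^ 2 * (240 * T ^ 2 - 11820 * e * T - 4023 * e ^ 2) := by
      apply mul_nonneg (sq_nonneg _)
      nlinarith
    have k2 : 0 ≤ 58 * e ^ 3 * T := by positivity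
    nlinarith [k1, k2]
  have c5 : 175.8 * T ^ 5 ≤ 260 * (T + e) ^ 2 * T ^ 3 - 84.2 * (T + e) ^ 3 * T ^ 2 := by
    have k1 : 0 ≤ T ^ 2 * (e * (267.4 * T ^ 2 + 7.4 * e * T - 84.2 * e ^ 2)) := by
      apply mul_nonneg (sq_nonneg _)
      apply mul_nonneg he0
      nlinarith
    nlinarith [k1]
  -- coefficients of the second form
  have d1 : 10000 * T ≤ -10000 * T + 20000 * (T + e) := by linarith
  have d2 : -10007 * T ^ 2 ≤ 400 * T ^ 2 - 10000 * (T + e) ^ 2 := by nlinarith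
  have d3 : 11921 * T ^ 3 ≤ 12000 * T ^ 3 - 20 * (T + e) * T ^ 2 + 250 * (T + e) ^ 2 * T -
      300 * (T + e) ^ 3 := by
    have : 0 ≤ T * (9 * T ^ 2 - 420 * e * T - 650 * e ^ 2) := by
      apply mul_nonneg hT
      nlinarith
    have h3 : e * (e * e) ≤ 0.0101 * T * (e * e) := mul_le_mul_of_nonneg_right he1 hee
    have h4 : 0 ≤ T * (e * e) := mul_nonneg hT hee
    nlinarith [this]
  have d4 : -806 * T ^ 4 ≤ -800 * (T + e) * T ^ 3 + 10 * (T + e) ^ 3 * T := by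
    have k1 : 0 ≤ T * (16 * T ^ 3 - 770 * e * T ^ 2 + 30 * e ^ 2 * T + 10 * e ^ 3) := by
      apply mul_nonneg hT
      have q1 : 0 ≤ T * (16 * T ^ 2 - 770 * e * T) := by
        apply mul_nonneg hT
        nlinarith
      have q2 : 0 ≤ 30 * e ^ 2 * T + 10 * e ^ 3 := by positivity
      nlinarith [q1, q2]
    nlinarith [k1]
  have d5 : 99.9 * T ^ 5 ≤ 100 * (T + e) ^ 2 * T ^ 3 - 0.1 * (T + e) ^ 3 * T ^ 2 := by
    have k1 : 0 ≤ T ^ 2 * (e * (199.7 * T ^ 2 + 99.7 * e * T - 0.1 * e ^ 2)) := by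
      apply mul_nonneg (sq_nonneg _)
      apply mul_nonneg he0
      nlinarith
    nlinarith [k1]
  set F1 : ℝ := 20000 * Y ^ 5 + Y ^ 4 * (-182000 * T + 414000 * (T + e)) +
    Y ^ 3 * (-162440 * T ^ 2 - 2600 * (T + e) * T - 135500 * (T + e) ^ 2) +
    Y ^ 2 * (119200 * T ^ 3 + 16660 * (T + e) * T ^ 2 + 2250 * (T + e) ^ 2 * T -
      2970 * (T + e) ^ 3) +
    Y * (-3600 * (T + e) * T ^ 3 - 4197 * (T + e) ^ 2 * T ^ 2 + 58 * (T + e) ^ 3 * T) +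
    (260 * (T + e) ^ 2 * T ^ 3 - 84.2 * (T + e) ^ 3 * T ^ 2) with hF1
  set F2 : ℝ := Y ^ 4 * (-10000 * T + 20000 * (T + e)) +
    Y ^ 3 * (400 * T ^ 2 - 10000 * (T + e) ^ 2) +
    Y ^ 2 * (12000 * T ^ 3 - 20 * (T + e) * T ^ 2 + 250 * (T + e) ^ 2 * T - 300 * (T + e) ^ 3) +
    Y * (-800 * (T + e) * T ^ 3 + 10 * (T + e) ^ 3 * T) +
    (100 * (T + e) ^ 2 * T ^ 3 - 0.1 * (T + e) ^ 3 * T ^ 2) with hF2
  have e1 : LW m Y (T + e) * Hf Y T - LH m Y T * Wf Y (T + e) = F1 + 2 * (m - 1) * F2 := by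
    rw [hF1, hF2]
    unfold LW Hf LH Wf
    ring
  have p1 : 0 ≤ F1 := by
    have q0 : 0 ≤ 20000 * Y ^ 5 := by positivity
    have q1 := mul_le_mul_of_nonneg_left c1 (pow_nonneg hY 4)
    have q2 := mul_le_mul_of_nonneg_left c2 (pow_nonneg hY 3)
    have q3 := mul_le_mul_of_nonneg_left c3 (pow_nonneg hY 2)
    have q4 := mul_le_mul_of_nonneg_left c4 hY
    have q5 := mul_nonneg hT (quartic1 Y T)
    rw [hF1]
    have q6 : T * (232000 * Y ^ 4 - 306095 * Y ^ 3 * T + 135140 * Y ^ 2 * T ^ 2 -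
        7979 * Y * T ^ 3 + 175.8 * T ^ 4) = Y ^ 4 * (232000 * T) + Y ^ 3 * (-306095 * T ^ 2) +
        Y ^ 2 * (135140 * T ^ 3) + Y * (-7979 * T ^ 4) + 175.8 * T ^ 5 := by ring
    rw [q6] at q5
    linarith
  have p2 : 0 ≤ F2 := by
    have q1 := mul_le_mul_of_nonneg_left d1 (pow_nonneg hY 4)
    have q2 := mul_le_mul_of_nonneg_left d2 (pow_nonneg hY 3)
    have q3 := mul_le_mul_of_nonneg_left d3 (pow_nonneg hY 2)
    have q4 := mul_le_mul_of_nonneg_left d4 hY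
    have q5 := mul_nonneg hT (quartic2 Y T)
    rw [hF2]
    have q6 : T * (10000 * Y ^ 4 - 10007 * Y ^ 3 * T + 11921 * Y ^ 2 * T ^ 2 -
        806 * Y * T ^ 3 + 99.9 * T ^ 4) = Y ^ 4 * (10000 * T) + Y ^ 3 * (-10007 * T ^ 2) +
        Y ^ 2 * (11921 * T ^ 3) + Y * (-806 * T ^ 4) + 99.9 * T ^ 5 := by ring
    rw [q6] at q5
    linarith
  have p3 : 0 ≤ 2 * (m - 1) * F2 := by
    apply mul_nonneg _ p2
    linarith
  linarith

theorem Hf_pos {Y T : ℝ} (hY : 0 ≤ Y) (hT : 0 < T) : 0 < Hf Y T := by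
  unfold Hf
  have h1 : 0 ≤ Y * (100 * Y ^ 2 - 5 * Y * T + (1 / 10) * T ^ 2) := by
    apply mul_nonneg hY
    nlinarith [sq_nonneg (T - 25 * Y), sq_nonneg Y]
  have h2 : 0 < 2 * T ^ 3 := by positivity
  nlinarith [h1, h2]

theorem Wf_lower {Y T X : ℝ} (hY : 0 ≤ Y) (hT : 0 < T) (h1 : T ≤ X) :
    0.4 * Hf Y T < Wf Y X := by
  have h3 : 1800 * Y ^ 3 + X ^ 3 ≤ Wf Y X := by
    unfold Wf
    have : 0 ≤ Y * (50 * (X - 2 * Y) ^ 2) := by positivity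
    nlinarith [this]
  have h4 : T ^ 3 ≤ X ^ 3 := pow_le_pow_left₀ hT.le h1 3
  have h5 : 0.4 * Hf Y T < 1800 * Y ^ 3 + T ^ 3 := by
    unfold Hf
    have k1 : 0 ≤ Y ^ 2 * T := by positivity
    have k2 : 0 < T ^ 3 := by positivity
    have k3 : 0 ≤ Y ^ 3 := by positivity
    have k4 : Y * T ^ 2 ≤ Y ^ 3 + T ^ 3 := by
      have : 0 ≤ (Y + T) * (Y - T) ^ 2 := by positivity
      nlinarith [mul_nonneg (sq_nonneg Y) hT.le, mul_nonneg hY (sq_nonneg T), this]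
    nlinarith [k1, k2, k3, k4]
  linarith

end Pool.Agent.R743.HopfLap
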